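import Pool.Agent.RKF.Fkg

/-! # MP_f155e9_co: robust form of Katona's shadow theorem

If `P` is an intersecting subfamily of a family `U` of `(k+1)`-subsets of an `n`-set, then
`(n-k) |U| ≤ (n-k) |∂ U| + 2 (n-2k-1) |U \ P|` (all differences truncated at zero). -/

set_option autoImplicit false

namespace Pool.Agent.RKF

open Finset Pool.Agent.OddLin
open UV
open scoped FinsetFamily

variable {n : ℕ}

/-- the measure which shifting decreases -/
private def me (𝒜 : Finset (Finset (Fin n))) : ℕ := ∑ A ∈ 𝒜, ∑ a ∈ A, 2 ^ (a : ℕ)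

private theorem compress_eq {i j : Fin n} (hij : i ≠ j) (A : Finset (Fin n)) :
    compress {i} {j} A = if i ∉ A ∧ j ∈ A then insert i (A.erase j) else A := by
  unfold compress
  by_cases h : i ∉ A ∧ j ∈ A
  · rw [if_pos h, if_pos]
    · ext x
      simp only [Finset.sup_eq_union, Finset.mem_sdiff, Finset.mem_union, Finset.mem_singleton,
        Finset.mem_insert, Finset.mem_erase]
      constructor
      · rintro ⟨h1 | h1, h2⟩
        · exact Or.inr ⟨h2, h1⟩
        · exact Or.inl h1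
      · rintro (h1 | h1)
        · exact ⟨Or.inr h1, fun h2 => hij (h1.symm.trans h2)⟩
        · exact ⟨Or.inl h1.2, h1.1⟩
    · exact ⟨Finset.disjoint_singleton_left.2 h.1, Finset.singleton_subset_iff.2 h.2⟩
  · rw [if_neg h, if_neg]
    rintro ⟨h1, h2⟩
    exact h ⟨Finset.disjoint_singleton_left.1 h1, Finset.singleton_subset_iff.1 h2⟩

private theorem me_lt {i j : Fin n} (hij : i < j) {𝒜 : Finset (Finset (Fin n))}
    (a : 𝓒 {i} {j} 𝒜 ≠ 𝒜) : me (𝓒 {i} {j} 𝒜) < me 𝒜 := by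
  rw [compression] at a ⊢
  have q : ∀ Q ∈ {A ∈ 𝒜 | compress {i} {j} A ∉ 𝒜}, compress {i} {j} Q ≠ Q := by grind
  have uA : {A ∈ 𝒜 | compress {i} {j} A ∈ 𝒜} ∪ {A ∈ 𝒜 | compress {i} {j} A ∉ 𝒜} = 𝒜 :=
    filter_union_filter_not_eq _ _
  have ne₂ : {A ∈ 𝒜 | compress {i} {j} A ∉ 𝒜}.Nonempty := by
    contrapose! a
    rw [filter_image, a, image_empty, union_empty]
    rwa [a, union_empty] at uA
  rw [me, me, sum_union compress_disjoint]
  conv_rhs => rw [← uA]
  rw [sum_union (disjoint_filter_filter_not _ _ _), add_lt_add_iff_left, filter_image,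
    sum_image compress_injOn]
  refine sum_lt_sum_of_nonempty ne₂ fun A hA ↦ ?_
  have h1 := q _ hA
  rw [compress_eq hij.ne] at h1 ⊢
  split_ifs at h1 ⊢ with h2
  · rw [sum_insert (fun h => h2.1 (mem_of_mem_erase h)),
      ← add_sum_erase A (fun a : Fin n => 2 ^ (a : ℕ)) h2.2, add_lt_add_iff_right]
    exact Nat.pow_lt_pow_right (by norm_num) hij
  · exact absurd rfl h1

private theorem me_le {i j : Fin n} (hij : i < j) (𝒜 : Finset (Finset (Fin n))) :
    me (𝓒 {i} {j} 𝒜) ≤ me 𝒜 := by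
  by_cases h : 𝓒 {i} {j} 𝒜 = 𝒜
  · rw [h]
  · exact (me_lt hij h).le

private theorem exists_pair {𝒜 : Finset (Finset (Fin n))} (h : ¬ Shifted 𝒜) :
    ∃ i j : Fin n, i < j ∧ 𝓒 {i} {j} 𝒜 ≠ 𝒜 := by
  unfold Shifted at h
  push Not at h
  obtain ⟨A, hA, i, j, hij, hj, hi, hne⟩ := h
  refine ⟨i, j, hij, fun heq => hne ?_⟩
  have h1 : compress {i} {j} A ∈ 𝓒 {i} {j} 𝒜 := compress_mem_compression hA
  rw [compress_eq hij.ne, if_pos ⟨hi, hj⟩, heq] at h1
  exact h1

private theorem moved {i j : Fin n} (hij : i ≠ j) {𝒜 : Finset (Finset (Fin n))}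
    {A : Finset (Fin n)} (h : A ∉ 𝒜) (h2 : ∃ b ∈ 𝒜, compress {i} {j} b = A) :
    ∃ b ∈ 𝒜, i ∉ b ∧ j ∈ b ∧ A = insert i (b.erase j) := by
  obtain ⟨b, hb, he⟩ := h2
  rw [compress_eq hij] at he
  split_ifs at he with h3
  · exact ⟨b, hb, h3.1, h3.2, he.symm⟩
  · exact absurd (he ▸ hb) h

private theorem size_comp {k : ℕ} {i j : Fin n} {𝒜 : Finset (Finset (Fin n))}
    (hA : ∀ A ∈ 𝒜, A.card = k) : ∀ A ∈ 𝓒 {i} {j} 𝒜, A.card = k := by
  intro A hA'
  rw [mem_compression] at hA'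
  rcases hA' with ⟨h, _⟩ | ⟨_, b, hb, rfl⟩
  · exact hA A h
  · rw [card_compress (by simp)]
    exact hA b hb

private theorem one_side {i j : Fin n} {A B : Finset (Fin n)}
    (hA : i ∉ A) (hjA : j ∈ A) (h1 : (A ∩ B).Nonempty)
    (h2 : i ∉ B → j ∈ B → (A ∩ insert i (B.erase j)).Nonempty) :
    (insert i (A.erase j) ∩ B).Nonempty := by
  by_cases hi : i ∈ B
  · exact ⟨i, mem_inter.2 ⟨mem_insert_self _ _, hi⟩⟩
  · by_cases hj : j ∈ B
    · obtain ⟨x, hx⟩ := h2 hi hj
      rw [mem_inter, mem_insert, mem_erase] at hx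
      refine ⟨x, mem_inter.2 ⟨?_, ?_⟩⟩
      · rcases hx.2 with h | h
        · exact absurd (h ▸ hx.1) hA
        · exact mem_insert_of_mem (mem_erase.2 ⟨h.1, hx.1⟩)
      · rcases hx.2 with h | h
        · exact absurd (h ▸ hx.1) hA
        · exact h.2
    · obtain ⟨x, hx⟩ := h1
      rw [mem_inter] at hx
      refine ⟨x, mem_inter.2 ⟨mem_insert_of_mem (mem_erase.2 ⟨?_, hx.1⟩), hx.2⟩⟩
      intro h
      exact hj (h ▸ hx.2)

private theorem inter_comp {i j : Fin n} (hij : i ≠ j) {𝒜 : Finset (Finset (Fin n))}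
    (hc : ∀ A ∈ 𝒜, ∀ B ∈ 𝒜, (A ∩ B).Nonempty) :
    ∀ A ∈ 𝓒 {i} {j} 𝒜, ∀ B ∈ 𝓒 {i} {j} 𝒜, (A ∩ B).Nonempty := by
  intro A hA B hB
  rw [mem_compression] at hA hB
  have hcomp : ∀ {D : Finset (Fin n)},
      compress {i} {j} D ∈ 𝒜 → i ∉ D → j ∈ D → insert i (D.erase j) ∈ 𝒜 := by
    intro D h hi hj
    rwa [compress_eq hij, if_pos ⟨hi, hj⟩] at h
  rcases hA with ⟨hA, hA2⟩ | ⟨hA, hA2⟩
  · rcases hB with ⟨hB, hB2⟩ | ⟨hB, hB2⟩
    · exact hc A hA B hB
    · obtain ⟨b, hb, hi, hj, rfl⟩ := moved hij hB hB2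
      rw [inter_comm]
      refine one_side hi hj (by rw [inter_comm]; exact hc A hA b hb) (fun h1 h2 => ?_)
      rw [inter_comm]
      exact hc _ (hcomp hA2 h1 h2) b hb
  · obtain ⟨a, ha, hi, hj, rfl⟩ := moved hij hA hA2
    rcases hB with ⟨hB, hB2⟩ | ⟨hB, hB2⟩
    · exact one_side hi hj (hc a ha B hB) (fun h1 h2 => hc a ha _ (hcomp hB2 h1 h2))
    · obtain ⟨b, hb, hi', hj', rfl⟩ := moved hij hB hB2
      exact ⟨i, mem_inter.2 ⟨mem_insert_self _ _, mem_insert_self _ _⟩⟩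

private theorem comp_mono {i j : Fin n} {𝒜 ℬ : Finset (Finset (Fin n))} (h : 𝒜 ⊆ ℬ) :
    𝓒 {i} {j} 𝒜 ⊆ 𝓒 {i} {j} ℬ := by
  intro A hA
  rw [mem_compression] at hA ⊢
  rcases hA with ⟨h1, h2⟩ | ⟨h1, b, h2, h3⟩
  · exact Or.inl ⟨h h1, h h2⟩
  · by_cases hB : A ∈ ℬ
    · refine Or.inl ⟨hB, ?_⟩
      rw [← h3, compress_idem, h3]
      exact hB
    · exact Or.inr ⟨hB, b, h h2, h3⟩

/-- simultaneous shifting of a family and an intersecting subfamily -/
theorem exists_shifted {k : ℕ} (P U : Finset (Finset (Fin n))) (hPU : P ⊆ U)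
    (hU : ∀ A ∈ U, A.card = k) (hP : ∀ A ∈ P, ∀ B ∈ P, (A ∩ B).Nonempty) :
    ∃ P' U' : Finset (Finset (Fin n)), P' ⊆ U' ∧ P'.card = P.card ∧ U'.card = U.card ∧
      (∀ A ∈ U', A.card = k) ∧ (∀ A ∈ P', ∀ B ∈ P', (A ∩ B).Nonempty) ∧
      Shifted P' ∧ Shifted U' ∧ (∂ U').card ≤ (∂ U).card := by
  have key : ∀ m : ℕ, ∀ P U : Finset (Finset (Fin n)), me P + me U ≤ m → P ⊆ U →
      (∀ A ∈ U, A.card = k) → (∀ A ∈ P, ∀ B ∈ P, (A ∩ B).Nonempty) →
      ∃ P' U' : Finset (Finset (Fin n)), P' ⊆ U' ∧ P'.card = P.card ∧ U'.card = U.card ∧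
      (∀ A ∈ U', A.card = k) ∧ (∀ A ∈ P', ∀ B ∈ P', (A ∩ B).Nonempty) ∧
      Shifted P' ∧ Shifted U' ∧ (∂ U').card ≤ (∂ U).card := by
    intro m
    induction m with
    | zero =>
      intro P U hm hPU hU hP
      by_cases h : Shifted P ∧ Shifted U
      · exact ⟨P, U, hPU, rfl, rfl, hU, hP, h.1, h.2, le_rfl⟩
      · exfalso
        rw [not_and_or] at h
        rcases h with h | h
        · obtain ⟨i, j, hij, hne⟩ := exists_pair h
          have := me_lt hij hne
          omega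
        · obtain ⟨i, j, hij, hne⟩ := exists_pair h
          have := me_lt hij hne
          omega
    | succ m ih =>
      intro P U hm hPU hU hP
      by_cases h : Shifted P ∧ Shifted U
      · exact ⟨P, U, hPU, rfl, rfl, hU, hP, h.1, h.2, le_rfl⟩
      · have h1 : ∃ i j : Fin n, i < j ∧
            me (𝓒 {i} {j} P) + me (𝓒 {i} {j} U) < me P + me U := by
          rw [not_and_or] at h
          rcases h with h | h
          · obtain ⟨i, j, hij, hne⟩ := exists_pair h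
            exact ⟨i, j, hij, add_lt_add_of_lt_of_le (me_lt hij hne) (me_le hij U)⟩
          · obtain ⟨i, j, hij, hne⟩ := exists_pair h
            exact ⟨i, j, hij, add_lt_add_of_le_of_lt (me_le hij P) (me_lt hij hne)⟩
        obtain ⟨i, j, hij, hlt⟩ := h1
        obtain ⟨P', U', h2, h3, h4, h5, h6, h7, h8, h9⟩ :=
          ih (𝓒 {i} {j} P) (𝓒 {i} {j} U) (by omega) (comp_mono hPU)
          (size_comp hU) (inter_comp hij.ne hP)
        refine ⟨P', U', h2, ?_, ?_, h5, h6, h7, h8, h9.trans ?_⟩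
        · rw [h3, card_compression]
        · rw [h4, card_compression]
        · refine card_shadow_compression_le _ _ (fun x hx => ⟨j, mem_singleton_self _, ?_⟩)
          rw [mem_singleton] at hx
          subst hx
          rw [erase_singleton, erase_singleton]
          exact isCompressed_self _ _
  exact key _ P U le_rfl hPU hU hP

/-- **Robust form of Katona's shadow theorem.**  An intersecting subfamily `P` of a family `U`
of `(k+1)`-sets: the shadow of `U` has at least `|U| - 2 η |U \ P|` members, where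
`η = (n-2k-1)/(n-k)` (and `η = 0` for `n ≤ 2k+1`). -/
theorem robust_katona {n k : ℕ} (P U : Finset (Finset (Fin n))) (hPU : P ⊆ U)
    (hU : ∀ A ∈ U, A.card = k + 1) (hP : ∀ A ∈ P, ∀ B ∈ P, (A ∩ B).Nonempty) :
    (n - k) * U.card ≤ (n - k) * (∂ U).card + 2 * (n - 2 * k - 1) * (U \ P).card := by
  by_cases hn : 2 * (k + 1) ≤ n
  · obtain ⟨P', U', h1, h2, h3, h4, h5, h6, h7, h8⟩ := exists_shifted P U hPU hU hP
    have h9 := robust_shifted hn h7 h6 h4 h5
    have h10 : (U' \ P').card = (U \ P).card := by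
      rw [card_sdiff_of_subset h1, card_sdiff_of_subset hPU, h2, h3]
    rw [h3, h10] at h9
    exact h9.trans (Nat.add_le_add_right (Nat.mul_le_mul_left _ h8) _)
  · have h1 : (U : Set (Finset (Fin n))).Sized (k + 1) := fun A hA => hU A hA
    have h2 := local_lubell_yamamoto_meshalkin_inequality_mul h1
    rw [Fintype.card_fin] at h2
    refine le_trans ?_ (Nat.le_add_right _ _)
    rcases U.eq_empty_or_nonempty with h3 | ⟨A, hA⟩
    · rw [h3, card_empty, mul_zero]
      exact Nat.zero_le _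
    · have h4 : k + 1 ≤ n := by
        have := card_le_univ A
        rw [hU A hA, Fintype.card_fin] at this
        exact this
      have h5 : n - (k + 1) + 1 = n - k := by omega
      rw [h5] at h2
      have h6 : (n - k) * U.card ≤ U.card * (k + 1) := by
        rw [mul_comm]
        exact Nat.mul_le_mul_left _ (by omega)
      calc (n - k) * U.card ≤ U.card * (k + 1) := h6
        _ ≤ (∂ U).card * (n - k) := h2
        _ = (n - k) * (∂ U).card := mul_comm _ _

end Pool.Agent.RKF
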