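import Pool.Agent.RKF.Ops

/-! # MP_f155e9_co: robust form of Katona's shadow theorem, counting for shifted families -/

set_option autoImplicit false

namespace Pool.Agent.RKF

open Finset Pool.Agent.OddLin
open scoped FinsetFamily

variable {n k : ℕ}

theorem exists_one {r : ℕ} {f : ℕ → ℤ} (hf : IsP n r f) (h : ¬ ∀ t, f t ≤ 0) : ∃ t, f t = 1 := by
  by_contra hcon
  push Not at hcon
  exact h (fun t => nonpos_of_ne_one hf (T := t + 1) (fun s _ => hcon s) t (Nat.lt_succ_self t))

open scoped Classical in
/-- the shadow of a shifted family: only the never positive members can be lost -/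
theorem card_le_shadow_add (hn : 2 * (k + 1) ≤ n) {U : Finset (Finset (Fin n))}
    (hs : Shifted U) (hU : ∀ A ∈ U, A.card = k + 1) :
    U.card ≤ (∂ U).card + (U.filter (fun A => ∀ t, ht A t ≤ 0)).card := by
  rw [← card_filter_add_card_filter_not (s := U) (fun A => ∀ t, ht A t ≤ 0), add_comm]
  refine Nat.add_le_add_right ?_ _
  refine card_le_card_of_injOn (fun A => toSet n (rfl' (ft 1 (ht A)) 1 (ht A))) ?_ ?_
  · intro A hA
    rw [mem_coe, mem_filter] at hA
    obtain ⟨hA, hA2⟩ := hA
    have hf := isP_ht (hU A hA)
    change toSet n (rfl' (ft 1 (ht A)) 1 (ht A)) ∈ _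
    obtain ⟨f, hfdef⟩ : ∃ f, f = ht A := ⟨_, rfl⟩
    rw [← hfdef] at hf hA2 ⊢
    have hex := exists_one hf hA2
    have hT := ft_spec hex
    have hmin : ∀ t, t < ft 1 f → f t ≠ 1 := fun t h => ft_min hex h
    have hle := nonpos_of_ne_one hf hmin
    obtain ⟨T, hTT⟩ : ∃ T, ft 1 f = T + 1 := by
      rcases Nat.eq_zero_or_pos (ft 1 f) with h | h
      · rw [h, hf.zero] at hT
        omega
      · exact ⟨ft 1 f - 1, by omega⟩
    rw [hTT] at hT hle
    have hTn : T + 1 ≤ n := by
      by_contra hcon
      rw [hf.tail (T + 1) (by omega)] at hT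
      omega
    have hT0 : f T = 0 := by
      have h1 := hle T (Nat.lt_succ_self T)
      rcases hf.step T with h2 | h2 <;> omega
    have hphi : IsP n k (rfl' (T + 1) 1 f) :=
      IsP.rfl' (by push_cast; ring) hf hT hTn
    have hpsi : IsP n (k + 1) (fun t => if t ≤ T then - f t else f t) := by
      refine ⟨?_, fun t => ?_, fun t h => ?_⟩
      · simp only [Nat.zero_le, if_true]
        rw [hf.zero]; rfl
      · by_cases h1 : t + 1 ≤ T
        · rw [if_pos h1, if_pos (by omega)]
          rcases hf.step t with h | h <;> omega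
        · rw [if_neg h1]
          by_cases h2 : t ≤ T
          · rw [if_pos h2]
            have h3 : t = T := by omega
            rw [h3, hT0]
            rcases hf.step T with h | h <;> omega
          · rw [if_neg h2]
            exact hf.step t
      · rw [if_neg (by omega), hf.tail t h]
    rw [mem_coe, mem_shadow_iff_insert_mem, hTT]
    refine ⟨⟨T, hTn⟩, ?_, ?_⟩
    · rw [mem_toSet]
      simp only [rfl']
      rw [if_pos le_rfl, if_pos (by omega), hT, hT0]
      norm_num
    · have heq : insert (⟨T, hTn⟩ : Fin n) (toSet n (rfl' (T + 1) 1 f)) =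
          toSet n (fun t => if t ≤ T then - f t else f t) := by
        ext x
        rw [mem_insert, mem_toSet, mem_toSet, Fin.ext_iff]
        simp only [rfl']
        rcases lt_trichotomy x.val T with h1 | h1 | h1
        · rw [if_pos (by omega), if_pos (by omega), if_pos (by omega), if_pos (by omega)]
          constructor
          · rintro (h2 | h2)
            · omega
            · exact h2
          · exact fun h2 => Or.inr h2
        · rw [if_neg (by omega : ¬ (x.val + 1 ≤ T)), if_pos (by omega : x.val ≤ T), h1, hT, hT0]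
          simp
        · rw [if_neg (by omega : ¬ (x.val + 1 ≤ T + 1)), if_neg (by omega : ¬ (x.val + 1 ≤ T)),
            if_neg (by omega : ¬ (x.val ≤ T))]
          by_cases h2 : x.val ≤ T + 1
          · rw [if_pos h2]
            have h3 : x.val = T + 1 := by omega
            rw [h3, hT]
            constructor
            · rintro (h4 | h4)
              · omega
              · omega
            · intro h4
              right
              omega
          · rw [if_neg h2]
            constructor
            · rintro (h4 | h4)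
              · omega
              · omega
            · intro h4
              right
              omega
      rw [heq]
      refine mem_of_le hs hA ?_ ?_
      · rw [hU A hA, card_toSet hpsi]
      · intro t
        rw [ht_toSet hpsi, ← hfdef]
        simp only
        split_ifs with h
        · have := hle t (by omega)
          omega
        · exact le_rfl
  · intro A hA B hB hAB
    rw [mem_coe, mem_filter] at hA hB
    simp only at hAB
    have hfA := isP_ht (hU A hA.1)
    have hfB := isP_ht (hU B hB.1)
    have hexA := exists_one hfA hA.2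
    have hexB := exists_one hfB hB.2
    have hle : ∀ {f : ℕ → ℤ}, IsP n (k + 1) f → (∃ t, f t = 1) → ft 1 f ≤ n := by
      intro f hf hex
      by_contra hcon
      have hT := ft_spec hex
      rw [hf.tail _ (by omega)] at hT
      omega
    have h1 : IsP n k (rfl' (ft 1 (ht A)) 1 (ht A)) :=
      IsP.rfl' (by push_cast; ring) hfA (ft_spec hexA) (hle hfA hexA)
    have h2 : IsP n k (rfl' (ft 1 (ht B)) 1 (ht B)) :=
      IsP.rfl' (by push_cast; ring) hfB (ft_spec hexB) (hle hfB hexB)
    have h3 := congrArg ht hAB
    rw [ht_toSet h1, ht_toSet h2] at h3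
    exact ht_inj (rfl'_inj hexA hexB h3)

open scoped Classical in
/-- the number of the never positive sets -/
theorem card_np_le (hn : 2 * (k + 1) ≤ n) :
    ((powersetCard (k + 1) (univ : Finset (Fin n))).filter
      (fun A => ∀ t, ht A t ≤ 0)).card * (n - k) ≤ (n - 2 * k - 1) * n.choose (k + 1) := by
  have hex : ∀ {f : ℕ → ℤ}, IsP n k f → ∃ t, t ≤ n ∧ f t = -1 := by
    intro f hf
    by_contra hcon
    push Not at hcon
    have h1 := nonneg_of_ne_neg hf (T := n + 1) (fun t h => hcon t (by omega)) n
      (Nat.lt_succ_self n)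
    rw [hf.tail n le_rfl] at h1
    omega
  have hle : ∀ {f : ℕ → ℤ}, IsP n k f → ft (-1) f ≤ n := by
    intro f hf
    obtain ⟨t, h1, h2⟩ := hex hf
    by_contra hcon
    exact ft_min ⟨t, h2⟩ (by omega) h2
  have hP : ∀ {f : ℕ → ℤ}, IsP n k f → IsP n (k + 1) (rfl' (ft (-1) f) (-1) f) := by
    intro f hf
    obtain ⟨t, h1, h2⟩ := hex hf
    exact IsP.rfl' (by push_cast; ring) hf (ft_spec ⟨t, h2⟩) (hle hf)
  have h1 : n.choose k ≤ ((powersetCard (k + 1) (univ : Finset (Fin n))).filter
      (fun A => ¬ ∀ t, ht A t ≤ 0)).card := by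
    have hc : (powersetCard k (univ : Finset (Fin n))).card = n.choose k := by
      rw [card_powersetCard, card_univ, Fintype.card_fin]
    rw [← hc]
    refine card_le_card_of_injOn (fun C => toSet n (rfl' (ft (-1) (ht C)) (-1) (ht C))) ?_ ?_
    · intro C hC
      rw [mem_coe, mem_powersetCard_univ] at hC
      have hf := isP_ht hC
      rw [mem_coe, mem_filter, mem_powersetCard_univ]
      simp only
      refine ⟨card_toSet (hP hf), fun hcon => ?_⟩
      rw [ht_toSet (hP hf)] at hcon
      have h2 := hcon (ft (-1) (ht C))
      unfold rfl' at h2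
      obtain ⟨t, _, h3⟩ := hex hf
      rw [if_pos le_rfl, ft_spec ⟨t, h3⟩] at h2
      omega
    · intro C hC D hD hCD
      rw [mem_coe, mem_powersetCard_univ] at hC hD
      simp only at hCD
      have hf := isP_ht hC
      have hg := isP_ht hD
      have h3 := congrArg ht hCD
      rw [ht_toSet (hP hf), ht_toSet (hP hg)] at h3
      obtain ⟨t, _, h4⟩ := hex hf
      obtain ⟨t', _, h5⟩ := hex hg
      exact ht_inj (rfl'_inj ⟨t, h4⟩ ⟨t', h5⟩ h3)
  have h2 := card_filter_add_card_filter_not
    (s := powersetCard (k + 1) (univ : Finset (Fin n))) (fun A => ∀ t, ht A t ≤ 0)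
  rw [card_powersetCard, card_univ, Fintype.card_fin] at h2
  have h3 := Nat.choose_succ_right_eq n k
  set w := ((powersetCard (k + 1) (univ : Finset (Fin n))).filter
      (fun A => ∀ t, ht A t ≤ 0)).card with hw
  have h4 : w + n.choose k ≤ n.choose (k + 1) := by omega
  have h5 : (w + n.choose k) * (n - k) ≤ n.choose (k + 1) * (n - k) :=
    Nat.mul_le_mul_right _ h4
  rw [add_mul, ← h3] at h5
  obtain ⟨m, hm⟩ : ∃ m, n = m + 2 * (k + 1) := ⟨n - 2 * (k + 1), by omega⟩
  have h6 : n - k = m + 1 + (k + 1) := by omega
  have h7 : n - 2 * k - 1 = m + 1 := by omega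
  rw [h6] at h5 ⊢
  rw [h7]
  nlinarith

end Pool.Agent.RKF
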