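import Pool.Agent.RKF.Count

/-! # MP_f155e9_co: robust form of Katona's shadow theorem, correlation inequality -/

set_option autoImplicit false

namespace Pool.Agent.RKF

open Finset Pool.Agent.OddLin
open scoped FinsetFamily

variable {n k : ℕ}

/-- a sum with an indicator -/
private theorem sum_ind_le {α : Type*} [DecidableEq α] (s t : Finset α) (h : α → ℕ) :
    (∑ w ∈ s, if w ∈ t then h w else 0) ≤ ∑ w ∈ t, h w := by
  rw [← sum_filter]
  exact sum_le_sum_of_subset (fun x hx => (mem_filter.1 hx).2)

open scoped Classical in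
/-- FKG on the lattice of the never positive paths -/
theorem fkg_fold (hn : 2 * (k + 1) ≤ n) {U : Finset (Finset (Fin n))} (hs : Shifted U)
    (hU : ∀ A ∈ U, A.card = k + 1) :
    (U.filter (fun A => ∀ t, ht A t ≤ 0)).card * n.choose (k + 1) ≤
      ((powersetCard (k + 1) (univ : Finset (Fin n))).filter
        (fun A => ∀ t, ht A t ≤ 0)).card *
      ((powersetCard (k + 1) (univ : Finset (Fin n))).filter
        (fun A => toSet n (fold (ht A)) ∈ U)).card := by
  set S := powersetCard (k + 1) (univ : Finset (Fin n)) with hS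
  set X : Finset (ℕ → ℤ) := (U.filter (fun A => ∀ t, ht A t ≤ 0)).image ht with hX
  set W : Finset (ℕ → ℤ) := (S.filter (fun A => ∀ t, ht A t ≤ 0)).image ht with hW
  set g : (ℕ → ℤ) → ℕ := fun w => (S.filter (fun A => fold (ht A) = w)).card with hg
  have memW : ∀ w, w ∈ W ↔ IsP n (k + 1) w ∧ ∀ t, w t ≤ 0 := by
    intro w
    rw [hW, mem_image]
    constructor
    · rintro ⟨A, hA, rfl⟩
      rw [mem_filter, hS, mem_powersetCard_univ] at hA
      exact ⟨isP_ht hA.1, hA.2⟩
    · rintro ⟨h1, h2⟩
      refine ⟨toSet n w, ?_, ht_toSet h1⟩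
      rw [mem_filter, hS, mem_powersetCard_univ, ht_toSet h1]
      exact ⟨card_toSet h1, h2⟩
  have memX : ∀ w, w ∈ X ↔ IsP n (k + 1) w ∧ (∀ t, w t ≤ 0) ∧ toSet n w ∈ U := by
    intro w
    rw [hX, mem_image]
    constructor
    · rintro ⟨A, hA, rfl⟩
      rw [mem_filter] at hA
      refine ⟨isP_ht (hU A hA.1), hA.2, ?_⟩
      rw [toSet_ht]
      exact hA.1
    · rintro ⟨h1, h2, h3⟩
      refine ⟨toSet n w, ?_, ht_toSet h1⟩
      rw [mem_filter, ht_toSet h1]
      exact ⟨h3, h2⟩
  have gmono : ∀ b ∈ W, ∀ c ∈ W, (∀ t, b t ≤ c t) → g b ≤ g c := by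
    intro b hb c hc hbc
    rw [memW] at hb hc
    rw [hg]
    refine card_le_card_of_injOn (fun A => toSet n (tr c (ht A))) ?_ ?_
    · intro A hA
      rw [mem_coe, mem_filter, hS, mem_powersetCard_univ] at hA
      have hf := isP_ht hA.1
      have hle : ∀ t, fold (ht A) t ≤ c t := fun t => by rw [hA.2]; exact hbc t
      have h1 : IsP n (k + 1) (tr c (ht A)) := IsP.tr hn hf hc.1 hc.2 hle
      rw [mem_coe, mem_filter, hS, mem_powersetCard_univ]
      simp only
      rw [ht_toSet h1]
      exact ⟨card_toSet h1, fold_tr hc.2 hle⟩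
    · intro A hA B hB hAB
      rw [mem_coe, mem_filter, hS, mem_powersetCard_univ] at hA hB
      simp only at hAB
      have hfA := isP_ht hA.1
      have hfB := isP_ht hB.1
      have hleA : ∀ t, fold (ht A) t ≤ c t := fun t => by rw [hA.2]; exact hbc t
      have hleB : ∀ t, fold (ht B) t ≤ c t := fun t => by rw [hB.2]; exact hbc t
      have h1 : IsP n (k + 1) (tr c (ht A)) := IsP.tr hn hfA hc.1 hc.2 hleA
      have h2 : IsP n (k + 1) (tr c (ht B)) := IsP.tr hn hfB hc.1 hc.2 hleB
      have h3 := congrArg ht hAB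
      rw [ht_toSet h1, ht_toSet h2] at h3
      exact ht_inj (tr_inj hfA hfB hc.1 (hA.2.trans hB.2.symm) h3)
  have cardX : X.card = (U.filter (fun A => ∀ t, ht A t ≤ 0)).card :=
    card_image_of_injective _ (fun A B h => ht_inj h)
  have cardW : W.card = (S.filter (fun A => ∀ t, ht A t ≤ 0)).card :=
    card_image_of_injective _ (fun A B h => ht_inj h)
  have sumW : ∑ w ∈ W, g w = n.choose (k + 1) := by
    have hc : S.card = n.choose (k + 1) := by
      rw [hS, card_powersetCard, card_univ, Fintype.card_fin]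
    rw [← hc, hg]
    refine (card_eq_sum_card_fiberwise (f := fun A => fold (ht A)) ?_).symm
    intro A hA
    rw [mem_coe, hS, mem_powersetCard_univ] at hA
    rw [mem_coe, memW]
    exact ⟨IsP.fold hn (isP_ht hA), fold_nonpos _⟩
  have sumX : ∑ w ∈ X, g w = (S.filter (fun A => toSet n (fold (ht A)) ∈ U)).card := by
    have h1 := card_eq_sum_card_fiberwise (f := fun A => fold (ht A))
      (s := S.filter (fun A => toSet n (fold (ht A)) ∈ U)) (t := X) (by
        intro A hA
        rw [mem_coe, mem_filter, hS, mem_powersetCard_univ] at hA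
        rw [mem_coe, memX]
        exact ⟨IsP.fold hn (isP_ht hA.1), fold_nonpos _, hA.2⟩)
    rw [h1]
    refine sum_congr rfl (fun w hw => ?_)
    rw [memX] at hw
    change (S.filter (fun A => fold (ht A) = w)).card = _
    rw [filter_filter]
    refine congrArg Finset.card ?_
    ext A
    simp only [mem_filter]
    constructor
    · rintro ⟨h2, h3⟩
      refine ⟨h2, ?_, h3⟩
      rw [h3]
      exact hw.2.2
    · rintro ⟨h2, h3⟩
      exact ⟨h2, h3.2⟩
  have four := four_functions_theorem (α := ℕ → ℤ) (β := ℕ)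
    (fun w => if w ∈ X then 1 else 0) (fun w => if w ∈ W then g w else 0)
    (fun w => if w ∈ W then 1 else 0) (fun w => if w ∈ X then g w else 0)
    (fun _ => Nat.zero_le _) (fun _ => Nat.zero_le _) (fun _ => Nat.zero_le _)
    (fun _ => Nat.zero_le _) (by
      intro a b
      by_cases ha : a ∈ X
      · by_cases hb : b ∈ W
        · have ha' := (memX a).1 ha
          have hb' := (memW b).1 hb
          have h1 : a ⊓ b ∈ W := by
            rw [memW]
            refine ⟨ha'.1.inf hb'.1, fun t => ?_⟩
            rw [Pi.inf_apply]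
            exact (min_le_left _ _).trans (ha'.2.1 t)
          have hP : IsP n (k + 1) (a ⊔ b) := ha'.1.sup hb'.1
          have hle : ∀ t, (a ⊔ b) t ≤ 0 := by
            intro t
            rw [Pi.sup_apply]
            exact max_le (ha'.2.1 t) (hb'.2 t)
          have h2 : a ⊔ b ∈ X := by
            rw [memX]
            refine ⟨hP, hle, ?_⟩
            refine mem_of_le hs ha'.2.2 ?_ ?_
            · rw [card_toSet ha'.1, card_toSet hP]
            · intro t
              rw [ht_toSet ha'.1, ht_toSet hP, Pi.sup_apply]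
              exact le_max_left _ _
          simp only [if_pos ha, if_pos hb, if_pos h1, if_pos h2, one_mul]
          refine gmono b hb _ ((memW _).2 ⟨hP, hle⟩) (fun t => ?_)
          rw [Pi.sup_apply]
          exact le_max_right _ _
        · simp only [if_neg hb, mul_zero]
          exact Nat.zero_le _
      · simp only [if_neg ha, zero_mul]
        exact Nat.zero_le _) X W
  have e1 : (∑ w ∈ X, if w ∈ X then 1 else 0) = X.card := by
    rw [sum_ite_mem, inter_self, card_eq_sum_ones]
  have e2 : (∑ w ∈ W, if w ∈ W then g w else 0) = ∑ w ∈ W, g w := by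
    rw [sum_ite_mem, inter_self]
  rw [e1, e2, sumW] at four
  rw [← cardX, ← cardW, ← sumX]
  refine four.trans (Nat.mul_le_mul ?_ (sum_ind_le _ _ _))
  refine (sum_ind_le _ _ _).trans ?_
  rw [card_eq_sum_ones]

open scoped Classical in
/-- at most one of a set and its flip is in `P` -/
theorem card_fold_le (hn : 2 * (k + 1) ≤ n) {P U : Finset (Finset (Fin n))}
    (hsU : Shifted U) (hsP : Shifted P)
    (hP : ∀ A ∈ P, ∀ B ∈ P, (A ∩ B).Nonempty) :
    ((powersetCard (k + 1) (univ : Finset (Fin n))).filter
        (fun A => toSet n (fold (ht A)) ∈ U)).card ≤ 2 * (U \ P).card := by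
  set V := (powersetCard (k + 1) (univ : Finset (Fin n))).filter
        (fun A => toSet n (fold (ht A)) ∈ U) with hV
  have memV : ∀ A, A ∈ V ↔ A.card = k + 1 ∧ toSet n (fold (ht A)) ∈ U := by
    intro A
    rw [hV, mem_filter, mem_powersetCard_univ]
  have h1 : (V.filter (fun A => A ∈ P)).card ≤ (V.filter (fun A => ¬ A ∈ P)).card := by
    refine card_le_card_of_injOn (fun A => toSet n (flip n (ht A))) ?_ ?_
    · intro A hA
      rw [mem_coe, mem_filter, memV] at hA
      have hf := isP_ht hA.1.1
      rw [mem_coe, mem_filter, memV]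
      simp only
      rw [ht_toSet hf.flip, fold_flip]
      refine ⟨⟨card_toSet hf.flip, hA.1.2⟩, fun hcon => ?_⟩
      obtain ⟨t, h⟩ := sum_pos hsP hP hA.2 hcon
      rw [ht_toSet hf.flip] at h
      have := add_flip_nonpos hn hf t
      omega
    · intro A hA B hB hAB
      rw [mem_coe, mem_filter, memV] at hA hB
      simp only at hAB
      have hfA := isP_ht hA.1.1
      have hfB := isP_ht hB.1.1
      have h3 := congrArg ht hAB
      rw [ht_toSet hfA.flip, ht_toSet hfB.flip] at h3
      have h4 := congrArg (flip n) h3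
      rw [flip_flip, flip_flip] at h4
      exact ht_inj h4
  have h2 : V.filter (fun A => ¬ A ∈ P) ⊆ U \ P := by
    intro A hA
    rw [mem_filter, memV] at hA
    rw [mem_sdiff]
    refine ⟨?_, hA.2⟩
    have hf := isP_ht hA.1.1
    have hF := IsP.fold hn hf
    refine mem_of_le hsU hA.1.2 ?_ ?_
    · rw [card_toSet hF, hA.1.1]
    · intro t
      rw [ht_toSet hF]
      exact fold_le _ t
  have h3 := card_le_card h2
  have h4 := card_filter_add_card_filter_not (s := V) (fun A => A ∈ P)
  omega

/-- robust form of Katona's shadow theorem, shifted families -/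
theorem robust_shifted (hn : 2 * (k + 1) ≤ n) {P U : Finset (Finset (Fin n))}
    (hsU : Shifted U) (hsP : Shifted P) (hU : ∀ A ∈ U, A.card = k + 1)
    (hP : ∀ A ∈ P, ∀ B ∈ P, (A ∩ B).Nonempty) :
    (n - k) * U.card ≤ (n - k) * (∂ U).card + 2 * (n - 2 * k - 1) * (U \ P).card := by
  classical
  have h1 := card_le_shadow_add hn hsU hU
  have h2 := card_np_le (n := n) (k := k) hn
  have h3 := fkg_fold hn hsU hU
  have h4 := card_fold_le hn hsU hsP hP
  set u := (U.filter (fun A => ∀ t, ht A t ≤ 0)).card with hu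
  set w := ((powersetCard (k + 1) (univ : Finset (Fin n))).filter
      (fun A => ∀ t, ht A t ≤ 0)).card with hw
  set v := ((powersetCard (k + 1) (univ : Finset (Fin n))).filter
        (fun A => toSet n (fold (ht A)) ∈ U)).card with hv
  have hpos : 0 < n.choose (k + 1) := Nat.choose_pos (by omega)
  have h5 : (u * (n - k)) * n.choose (k + 1) ≤
      ((n - 2 * k - 1) * v) * n.choose (k + 1) := by
    calc (u * (n - k)) * n.choose (k + 1) = (u * n.choose (k + 1)) * (n - k) := by ring
      _ ≤ (w * v) * (n - k) := Nat.mul_le_mul_right _ h3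
      _ = (w * (n - k)) * v := by ring
      _ ≤ ((n - 2 * k - 1) * n.choose (k + 1)) * v := Nat.mul_le_mul_right _ h2
      _ = ((n - 2 * k - 1) * v) * n.choose (k + 1) := by ring
  have h6 : u * (n - k) ≤ (n - 2 * k - 1) * v := Nat.le_of_mul_le_mul_right h5 hpos
  calc (n - k) * U.card ≤ (n - k) * ((∂ U).card + u) := Nat.mul_le_mul_left _ h1
    _ = (n - k) * (∂ U).card + u * (n - k) := by ring
    _ ≤ (n - k) * (∂ U).card + (n - 2 * k - 1) * v := Nat.add_le_add_left h6 _
    _ ≤ (n - k) * (∂ U).card + (n - 2 * k - 1) * (2 * (U \ P).card) :=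
        Nat.add_le_add_left (Nat.mul_le_mul_left _ h4) _
    _ = _ := by ring

end Pool.Agent.RKF
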