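import Pool.Agent.RKF.Path

/-! # MP_f155e9_co: robust form of Katona's shadow theorem, operations on paths -/

set_option autoImplicit false

namespace Pool.Agent.RKF

open Finset

variable {n r : ℕ} {f g : ℕ → ℤ}

theorem IsP.parity (hf : IsP n r f) (t : ℕ) : (f t + t) % 2 = 0 := by
  induction t with
  | zero => rw [hf.zero]; rfl
  | succ t ih =>
    push_cast
    rcases hf.step t with h | h <;> rw [h] <;> omega

theorem IsP.sup (hf : IsP n r f) (hg : IsP n r g) : IsP n r (f ⊔ g) := by
  refine ⟨?_, fun t => ?_, fun t h => ?_⟩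
  · rw [Pi.sup_apply, hf.zero, hg.zero]; rfl
  · rw [Pi.sup_apply, Pi.sup_apply]
    have h1 := hf.parity t
    have h2 := hg.parity t
    rcases hf.step t with h3 | h3 <;> rcases hg.step t with h4 | h4 <;> rw [h3, h4] <;> omega
  · rw [Pi.sup_apply, hf.tail t h, hg.tail t h, max_self]

theorem IsP.inf (hf : IsP n r f) (hg : IsP n r g) : IsP n r (f ⊓ g) := by
  refine ⟨?_, fun t => ?_, fun t h => ?_⟩
  · rw [Pi.inf_apply, hf.zero, hg.zero]; rfl
  · rw [Pi.inf_apply, Pi.inf_apply]
    have h1 := hf.parity t
    have h2 := hg.parity t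
    rcases hf.step t with h3 | h3 <;> rcases hg.step t with h4 | h4 <;> rw [h3, h4] <;> omega
  · rw [Pi.inf_apply, hf.tail t h, hg.tail t h, min_self]

/-- the folding to the never positive side -/
def fold (f : ℕ → ℤ) : ℕ → ℤ := fun t => -|f t|

theorem IsP.fold (hn : 2 * r ≤ n) (hf : IsP n r f) : IsP n r (fold f) := by
  refine ⟨?_, fun t => ?_, fun t h => ?_⟩
  · simp [RKF.fold, hf.zero]
  · unfold RKF.fold
    rcases hf.step t with h | h <;> rw [h] <;>
      rcases abs_cases (f t) with ⟨h1, h2⟩ | ⟨h1, h2⟩ <;>
      rcases abs_cases (f t + 1) with ⟨h3, h4⟩ | ⟨h3, h4⟩ <;>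
      rcases abs_cases (f t - 1) with ⟨h5, h6⟩ | ⟨h5, h6⟩ <;> omega
  · unfold RKF.fold
    rw [hf.tail t h, abs_of_nonpos (by omega), neg_neg]

theorem fold_le (f : ℕ → ℤ) (t : ℕ) : fold f t ≤ f t := neg_abs_le (f t)

theorem fold_nonpos (f : ℕ → ℤ) (t : ℕ) : fold f t ≤ 0 := by
  unfold fold
  have := abs_nonneg (f t)
  omega

/-- a path that never hits 1 is never positive -/
theorem nonpos_of_ne_one (hf : IsP n r f) {T : ℕ} (h : ∀ t, t < T → f t ≠ 1) :
    ∀ t, t < T → f t ≤ 0 := by
  intro t
  induction t with
  | zero => intro _; rw [hf.zero]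
  | succ t ih =>
    intro h1
    have h2 := ih (by omega)
    have h3 := h _ h1
    rcases hf.step t with h4 | h4 <;> omega

/-- a path that never hits -1 is never negative -/
theorem nonneg_of_ne_neg (hf : IsP n r f) {T : ℕ} (h : ∀ t, t < T → f t ≠ -1) :
    ∀ t, t < T → 0 ≤ f t := by
  intro t
  induction t with
  | zero => intro _; rw [hf.zero]
  | succ t ih =>
    intro h1
    have h2 := ih (by omega)
    have h3 := h _ h1
    rcases hf.step t with h4 | h4 <;> omega

/-- the last zero -/
noncomputable def lz (n : ℕ) (f : ℕ → ℤ) : ℕ := by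
  classical exact Nat.findGreatest (fun t => f t = 0) n

theorem lz_zero (hf : IsP n r f) : f (lz n f) = 0 := by
  classical
  unfold lz
  exact Nat.findGreatest_spec (P := fun t => f t = 0) (Nat.zero_le n) hf.zero

theorem lz_le : lz n f ≤ n := by
  classical
  unfold lz
  exact Nat.findGreatest_le n

theorem neg_of_lz (hn : 2 * r ≤ n) (hf : IsP n r f) {t : ℕ} (h : lz n f < t) : f t < 0 := by
  classical
  have hne : ∀ s, lz n f < s → f s ≠ 0 := by
    intro s hs
    by_cases h1 : s ≤ n
    · unfold lz at hs
      exact Nat.findGreatest_is_greatest hs h1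
    · rw [hf.tail s (by omega)]
      omega
  by_contra hcon
  have hpos : ∀ s, 0 < f (t + s) := by
    intro s
    induction s with
    | zero =>
      have := hne t h
      simp only [add_zero]
      omega
    | succ s ih =>
      have h1 := hne (t + (s + 1)) (by omega)
      rw [← add_assoc] at h1 ⊢
      rcases hf.step (t + s) with h2 | h2 <;> omega
  have h1 := hpos n
  rw [hf.tail (t + n) (by omega)] at h1
  omega

/-- all closed excursions change their signs -/
noncomputable def flip (n : ℕ) (f : ℕ → ℤ) : ℕ → ℤ := fun t => if t ≤ lz n f then - f t else f t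

theorem IsP.flip (hf : IsP n r f) : IsP n r (flip n f) := by
  have hz := lz_zero hf
  refine ⟨?_, fun t => ?_, fun t h => ?_⟩
  · unfold RKF.flip
    rw [if_pos (Nat.zero_le _), hf.zero]; rfl
  · unfold RKF.flip
    by_cases h1 : t + 1 ≤ lz n f
    · rw [if_pos h1, if_pos (by omega)]
      rcases hf.step t with h | h <;> omega
    · rw [if_neg h1]
      by_cases h2 : t ≤ lz n f
      · rw [if_pos h2]
        have h3 : t = lz n f := by omega
        rw [← h3] at hz
        rcases hf.step t with h | h <;> omega
      · rw [if_neg h2]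
        exact hf.step t
  · unfold RKF.flip
    by_cases h1 : t ≤ lz n f
    · have h2 : lz n f ≤ n := lz_le
      have h3 : t = lz n f := by omega
      rw [← h3] at hz
      rw [if_pos h1, hz]
      have := hf.tail t h
      omega
    · rw [if_neg h1, hf.tail t h]

theorem flip_eq_zero (t : ℕ) : flip n f t = 0 ↔ f t = 0 := by
  unfold flip
  split_ifs <;> omega

theorem lz_flip : lz n (flip n f) = lz n f := by
  classical
  unfold lz
  congr 1
  funext t
  exact propext (flip_eq_zero t)

theorem flip_flip : flip n (flip n f) = f := by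
  funext t
  rw [flip, lz_flip]
  split_ifs with h
  · unfold flip
    rw [if_pos h, neg_neg]
  · unfold flip
    rw [if_neg h]

theorem fold_flip : fold (flip n f) = fold f := by
  funext t
  unfold fold flip
  split_ifs
  · rw [abs_neg]
  · rfl

theorem add_flip_nonpos (hn : 2 * r ≤ n) (hf : IsP n r f) (t : ℕ) : f t + flip n f t ≤ 0 := by
  unfold flip
  split_ifs with h
  · omega
  · have := neg_of_lz hn hf (t := t) (by omega)
    omega

/-- the reflection up to time `T`, the rest is shifted by `2c` -/
def rfl' (T : ℕ) (c : ℤ) (f : ℕ → ℤ) : ℕ → ℤ := fun t => if t ≤ T then - f t else f t - 2 * c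

theorem IsP.rfl' {r' T : ℕ} {c : ℤ} (hc : (r' : ℤ) = r - c) (hf : IsP n r f) (hT : f T = c)
    (hTn : T ≤ n) : IsP n r' (rfl' T c f) := by
  refine ⟨?_, fun t => ?_, fun t h => ?_⟩
  · unfold RKF.rfl'
    rw [if_pos (Nat.zero_le _), hf.zero]; rfl
  · unfold RKF.rfl'
    by_cases h1 : t + 1 ≤ T
    · rw [if_pos h1, if_pos (by omega)]
      rcases hf.step t with h | h <;> omega
    · rw [if_neg h1]
      by_cases h2 : t ≤ T
      · rw [if_pos h2]
        have h3 : t = T := by omega
        rw [← h3] at hT
        rcases hf.step t with h | h <;> omega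
      · rw [if_neg h2]
        rcases hf.step t with h | h <;> omega
  · unfold RKF.rfl'
    by_cases h1 : t ≤ T
    · have h3 : t = T := by omega
      rw [← h3] at hT
      rw [if_pos h1]
      have := hf.tail t h
      omega
    · rw [if_neg h1, hf.tail t h]
      omega

/-- the first time at `c` -/
noncomputable def ft (c : ℤ) (f : ℕ → ℤ) : ℕ := by
  classical exact if h : ∃ t, f t = c then Nat.find h else 0

theorem ft_spec {c : ℤ} (h : ∃ t, f t = c) : f (ft c f) = c := by
  classical
  unfold ft
  rw [dif_pos h]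
  exact Nat.find_spec h

theorem ft_min {c : ℤ} {t : ℕ} (h : ∃ t, f t = c) (ht : t < ft c f) : f t ≠ c := by
  classical
  unfold ft at ht
  rw [dif_pos h] at ht
  exact Nat.find_min h ht

theorem ft_rfl' {c : ℤ} (h : ∃ t, f t = c) : ft (-c) (rfl' (ft c f) c f) = ft c f := by
  have h1 : rfl' (ft c f) c f (ft c f) = -c := by
    unfold rfl'
    rw [if_pos le_rfl, ft_spec h]
  have h2 : ∃ t, rfl' (ft c f) c f t = -c := ⟨_, h1⟩
  apply le_antisymm
  · by_contra hcon
    exact ft_min h2 (not_le.1 hcon) h1
  · by_contra hcon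
    have h3 := ft_spec h2
    have h4 := not_le.1 hcon
    have h5 := ft_min h h4
    have h6 : rfl' (ft c f) c f (ft (-c) (rfl' (ft c f) c f)) =
        - f (ft (-c) (rfl' (ft c f) c f)) := by
      rw [rfl', if_pos h4.le]
    rw [h6] at h3
    exact h5 (by omega)

/-- the reflection at the first time at `c` is injective -/
theorem rfl'_inj {c : ℤ} (hf : ∃ t, f t = c) (hg : ∃ t, g t = c)
    (h : rfl' (ft c f) c f = rfl' (ft c g) c g) : f = g := by
  have h1 := ft_rfl' hf
  have h2 := ft_rfl' hg
  rw [h, h2] at h1
  rw [← h1] at h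
  funext t
  have h3 := congrFun h t
  unfold rfl' at h3
  split_ifs at h3 <;> omega

/-- transport of the signs of `f` to another never positive path -/
def tr (w f : ℕ → ℤ) : ℕ → ℤ := fun t => - (Int.sign (f t) * w t)

theorem IsP.tr {w : ℕ → ℤ} (hn : 2 * r ≤ n) (hf : IsP n r f) (hw : IsP n r w)
    (hw0 : ∀ t, w t ≤ 0) (hfw : ∀ t, RKF.fold f t ≤ w t) : IsP n r (RKF.tr w f) := by
  refine ⟨?_, fun t => ?_, fun t h => ?_⟩
  · unfold RKF.tr
    rw [hw.zero]
    simp
  · have h1 := hw0 t
    have h2 := hw0 (t + 1)
    have h3 := hfw t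
    have h4 := hfw (t + 1)
    unfold RKF.fold at h3 h4
    unfold RKF.tr
    rcases lt_trichotomy (f t) 0 with h5 | h5 | h5
    · rw [Int.sign_eq_neg_one_of_neg h5]
      rcases lt_trichotomy (f (t + 1)) 0 with h6 | h6 | h6
      · rw [Int.sign_eq_neg_one_of_neg h6]
        rcases hw.step t with h | h <;> omega
      · rw [h6] at h4
        simp only [abs_zero, neg_zero] at h4
        have h7 : w (t + 1) = 0 := by omega
        rw [h7, h6]
        simp only [Int.sign_zero]
        rcases hw.step t with h | h <;> omega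
      · exfalso
        rcases hf.step t with h | h <;> omega
    · rw [h5] at h3 ⊢
      simp only [abs_zero, neg_zero] at h3
      have h7 : w t = 0 := by omega
      have h8 : w (t + 1) = -1 := by
        rcases hw.step t with h | h <;> omega
      rw [h7, h8]
      rcases hf.step t with h | h
      · rw [h, h5]
        simp
      · rw [h, h5]
        right
        simp
    · rw [Int.sign_eq_one_of_pos h5]
      rcases lt_trichotomy (f (t + 1)) 0 with h6 | h6 | h6
      · exfalso
        rcases hf.step t with h | h <;> omega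
      · rw [h6] at h4
        simp only [abs_zero, neg_zero] at h4
        have h7 : w (t + 1) = 0 := by omega
        rw [h7, h6]
        simp only [Int.sign_zero]
        rcases hw.step t with h | h <;> omega
      · rw [Int.sign_eq_one_of_pos h6]
        rcases hw.step t with h | h <;> omega
  · unfold RKF.tr
    rw [hw.tail t h]
    have h1 := hf.tail t h
    rcases eq_or_ne (2 * (r : ℤ) - t) 0 with h2 | h2
    · rw [h2]; simp
    · have h3 : f t < 0 := by omega
      rw [Int.sign_eq_neg_one_of_neg h3]
      ring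

theorem fold_tr {w : ℕ → ℤ} (hw0 : ∀ t, w t ≤ 0) (hfw : ∀ t, fold f t ≤ w t) :
    fold (tr w f) = w := by
  funext t
  have h1 := hw0 t
  have h2 := hfw t
  unfold fold at h2
  unfold fold tr
  rcases lt_trichotomy (f t) 0 with h5 | h5 | h5
  · rw [Int.sign_eq_neg_one_of_neg h5]
    simp only [neg_mul, one_mul, neg_neg]
    rw [abs_of_nonpos h1, neg_neg]
  · rw [h5] at h2 ⊢
    simp only [abs_zero, neg_zero] at h2
    simp
    omega
  · rw [Int.sign_eq_one_of_pos h5, one_mul, abs_neg, abs_of_nonpos h1, neg_neg]

/-- the transport of signs is injective on the paths with a given folding -/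
theorem tr_inj {w : ℕ → ℤ} (hf : IsP n r f) (hg : IsP n r g) (hw : IsP n r w)
    (hfg : fold f = fold g) (h : tr w f = tr w g) : f = g := by
  have habs : ∀ t, |f t| = |g t| := by
    intro t
    have := congrFun hfg t
    unfold fold at this
    omega
  have hodd : ∀ t, t % 2 = 1 → f t = g t := by
    intro t ht1
    have h1 := hf.parity t
    have h2 := hg.parity t
    have h3 := hw.parity t
    have h4 := habs t
    have h5 := congrFun h t
    unfold tr at h5
    have h6 : w t ≠ 0 := by omega
    have h7 : Int.sign (f t) = Int.sign (g t) := by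
      have h8 : Int.sign (f t) * w t = Int.sign (g t) * w t := by omega
      exact mul_right_cancel₀ h6 h8
    rw [← Int.sign_mul_abs (f t), ← Int.sign_mul_abs (g t), h7, h4]
  funext t
  by_cases ht1 : t % 2 = 1
  · exact hodd t ht1
  · have h1 := hodd (t + 1) (by omega)
    have h2 := habs t
    have h3 := hf.parity t
    have h4 := hg.parity t
    rcases hf.step t with h5 | h5 <;> rcases hg.step t with h6 | h6 <;>
      rcases abs_cases (f t) with ⟨h7, h8⟩ | ⟨h7, h8⟩ <;>
      rcases abs_cases (g t) with ⟨h9, h10⟩ | ⟨h9, h10⟩ <;> omega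

end Pool.Agent.RKF
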