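import Pool.Agent.OddLin.Count
import Pool.Agent.OddLin.Prefix

/-! # MP_f155e9_co: robust form of Katona's shadow theorem, lattice paths

A set `A` of `r` elements of `Fin n` is identified with the path `ht A`,
`ht A t = 2 |A ∩ [t]| - t`.  Shifted families are up-sets for the pointwise order. -/

set_option autoImplicit false

namespace Pool.Agent.RKF

open Finset Pool.Agent.OddLin

/-- height function of a set -/
def ht {n : ℕ} (A : Finset (Fin n)) (t : ℕ) : ℤ := 2 * (pre t A : ℤ) - t

/-- lattice paths with `r` up steps among the first `n` steps, continued by down steps -/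
structure IsP (n r : ℕ) (f : ℕ → ℤ) : Prop where
  zero : f 0 = 0
  step : ∀ t, f (t + 1) = f t + 1 ∨ f (t + 1) = f t - 1
  tail : ∀ t, n ≤ t → f t = 2 * r - t

/-- the set of the up steps -/
def toSet (n : ℕ) (f : ℕ → ℤ) : Finset (Fin n) :=
  univ.filter (fun i => f (i.val + 1) = f i.val + 1)

theorem mem_toSet {n : ℕ} {f : ℕ → ℤ} {i : Fin n} :
    i ∈ toSet n f ↔ f (i.val + 1) = f i.val + 1 := by
  simp [toSet]

theorem pre_zero' {n : ℕ} (A : Finset (Fin n)) : pre 0 A = 0 := by
  rw [pre_zero_iff]
  intro x _
  exact Nat.zero_le _

theorem pre_succ_mem {n : ℕ} {A : Finset (Fin n)} {i : Fin n} (h : i ∈ A) :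
    pre (i.val + 1) A = pre i.val A + 1 := by
  unfold pre
  have h1 : A.filter (fun x => x.val < i.val + 1) =
      insert i (A.filter (fun x => x.val < i.val)) := by
    ext x
    simp only [mem_filter, mem_insert]
    constructor
    · rintro ⟨h2, h3⟩
      by_cases h4 : x = i
      · exact Or.inl h4
      · refine Or.inr ⟨h2, ?_⟩
        have : x.val ≠ i.val := fun h5 => h4 (Fin.ext h5)
        omega
    · rintro (h2 | h2)
      · subst h2
        exact ⟨h, by omega⟩
      · exact ⟨h2.1, by omega⟩
  rw [h1, card_insert_of_notMem]
  rw [mem_filter]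
  rintro ⟨_, h2⟩
  omega

theorem pre_succ_notMem {n : ℕ} {A : Finset (Fin n)} {i : Fin n} (h : i ∉ A) :
    pre (i.val + 1) A = pre i.val A := by
  unfold pre
  congr 1
  ext x
  simp only [mem_filter]
  constructor
  · rintro ⟨h2, h3⟩
    refine ⟨h2, ?_⟩
    have : x.val ≠ i.val := fun h5 => h ((Fin.ext h5 : x = i) ▸ h2)
    omega
  · rintro ⟨h2, h3⟩
    exact ⟨h2, by omega⟩

theorem pre_ge {n t : ℕ} (h : n ≤ t) (A : Finset (Fin n)) : pre t A = A.card := by
  unfold pre
  rw [filter_true_of_mem]
  intro x _
  exact x.isLt.trans_le h

theorem ht_zero {n : ℕ} (A : Finset (Fin n)) : ht A 0 = 0 := by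
  simp [ht, pre_zero']

theorem ht_succ_mem {n : ℕ} {A : Finset (Fin n)} {i : Fin n} (h : i ∈ A) :
    ht A (i.val + 1) = ht A i.val + 1 := by
  unfold ht
  rw [pre_succ_mem h]
  push_cast
  ring

theorem ht_succ_notMem {n : ℕ} {A : Finset (Fin n)} {i : Fin n} (h : i ∉ A) :
    ht A (i.val + 1) = ht A i.val - 1 := by
  unfold ht
  rw [pre_succ_notMem h]
  push_cast
  ring

theorem ht_tail {n t : ℕ} (h : n ≤ t) (A : Finset (Fin n)) : ht A t = 2 * A.card - t := by
  unfold ht
  rw [pre_ge h]

theorem isP_ht {n r : ℕ} {A : Finset (Fin n)} (hA : A.card = r) : IsP n r (ht A) := by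
  refine ⟨ht_zero A, fun t => ?_, fun t h => ?_⟩
  · by_cases h : t < n
    · by_cases h2 : (⟨t, h⟩ : Fin n) ∈ A
      · exact Or.inl (ht_succ_mem h2)
      · exact Or.inr (ht_succ_notMem h2)
    · right
      rw [ht_tail (by omega), ht_tail (by omega)]
      push_cast
      ring
  · rw [ht_tail h, hA]

theorem toSet_ht {n : ℕ} (A : Finset (Fin n)) : toSet n (ht A) = A := by
  ext i
  rw [mem_toSet]
  by_cases h : i ∈ A
  · simp only [h, iff_true]
    exact ht_succ_mem h
  · simp only [h, iff_false]
    rw [ht_succ_notMem h]
    omega

theorem ht_inj {n : ℕ} {A B : Finset (Fin n)} (h : ht A = ht B) : A = B := by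
  rw [← toSet_ht A, h, toSet_ht]

theorem ht_toSet {n r : ℕ} {f : ℕ → ℤ} (hf : IsP n r f) : ht (toSet n f) = f := by
  have key : ∀ t, t ≤ n → ht (toSet n f) t = f t := by
    intro t
    induction t with
    | zero => intro _; rw [ht_zero, hf.zero]
    | succ t ih =>
      intro h
      have h1 := ih (by omega)
      by_cases h2 : (⟨t, by omega⟩ : Fin n) ∈ toSet n f
      · have h3 := ht_succ_mem h2
        have h4 := mem_toSet.1 h2
        simp only at h3 h4
        rw [h3, h4, h1]
      · have h3 := ht_succ_notMem h2
        simp only at h3
        rw [h3, h1]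
        rcases hf.step t with h4 | h4
        · exact absurd (mem_toSet.2 h4) h2
        · rw [h4]
  have hc : 2 * ((toSet n f).card : ℤ) - n = 2 * r - n := by
    rw [← ht_tail le_rfl, key n le_rfl, hf.tail n le_rfl]
  funext t
  by_cases h : t ≤ n
  · exact key t h
  · rw [ht_tail (by omega), hf.tail t (by omega)]
    linarith

theorem card_toSet {n r : ℕ} {f : ℕ → ℤ} (hf : IsP n r f) : (toSet n f).card = r := by
  have h1 := congrFun (ht_toSet hf) n
  rw [ht_tail le_rfl, hf.tail n le_rfl] at h1
  omega

/-- shifted families are up-sets for the order of the paths -/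
theorem mem_of_le {n : ℕ} {U : Finset (Finset (Fin n))} (hs : Shifted U)
    {A B : Finset (Fin n)} (hA : A ∈ U) (hc : A.card = B.card)
    (h : ∀ t, ht A t ≤ ht B t) : B ∈ U := by
  have key : ∀ m : ℕ, ∀ A ∈ U, A.card = B.card → (∀ t, ht A t ≤ ht B t) →
      (A \ B).card ≤ m → B ∈ U := by
    intro m
    induction m with
    | zero =>
      intro A hA hc _ hm
      have h1 : A ⊆ B := by
        rw [← sdiff_eq_empty_iff_subset, ← card_eq_zero]
        omega
      rwa [← eq_of_subset_of_card_le h1 hc.ge]
    | succ m ih =>
      intro A hA hc hle hm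
      by_cases hAB : A = B
      · rwa [← hAB]
      · have hne1 : (A \ B).Nonempty := by
          rw [nonempty_iff_ne_empty]
          intro h1
          exact hAB (eq_of_subset_of_card_le (sdiff_eq_empty_iff_subset.1 h1) hc.ge)
        have hne2 : (B \ A).Nonempty := by
          rw [nonempty_iff_ne_empty]
          intro h1
          exact hAB (eq_of_subset_of_card_le (sdiff_eq_empty_iff_subset.1 h1) hc.le).symm
        set j := (A \ B).min' hne1 with hj
        set i := (B \ A).min' hne2 with hi
        have hjm : j ∈ A \ B := min'_mem _ _
        have him : i ∈ B \ A := min'_mem _ _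
        rw [mem_sdiff] at hjm him
        have hle' : ∀ t, pre t A ≤ pre t B := by
          intro t
          have := hle t
          unfold ht at this
          omega
        have hij : i < j := by
          by_contra hcon
          have hne : i ≠ j := fun h1 => hjm.2 (h1 ▸ him.1)
          have hji : j < i := lt_of_le_of_ne (not_lt.1 hcon) (Ne.symm hne)
          have h1 : B.filter (fun x => x.val < j.val + 1) ⊂
              A.filter (fun x => x.val < j.val + 1) := by
            refine (ssubset_iff_of_subset ?_).2 ⟨j, ?_, ?_⟩
            · intro x hx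
              rw [mem_filter] at hx ⊢
              refine ⟨?_, hx.2⟩
              by_contra hxA
              have h2 : i ≤ x := min'_le _ _ (mem_sdiff.2 ⟨hx.1, hxA⟩)
              have h3 : i.val ≤ x.val := h2
              have h4 : j.val < i.val := hji
              omega
            · rw [mem_filter]
              exact ⟨hjm.1, by omega⟩
            · rw [mem_filter]
              exact fun h2 => hjm.2 h2.1
          have h2 := card_lt_card h1
          have h3 := hle' (j.val + 1)
          unfold pre at h3
          omega
        have hA' : insert i (A.erase j) ∈ U := hs A hA i j hij hjm.1 him.2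
        have hiA : i ∉ A.erase j := fun h1 => him.2 (mem_of_mem_erase h1)
        refine ih _ hA' ?_ ?_ ?_
        · rw [card_insert_of_notMem hiA, card_erase_of_mem hjm.1, ← hc]
          have : 0 < A.card := card_pos.2 ⟨j, hjm.1⟩
          omega
        · intro t
          suffices h1 : pre t (insert i (A.erase j)) ≤ pre t B by
            unfold ht
            omega
          by_cases ht1 : t ≤ j.val
          · apply card_le_card
            intro x hx
            rw [mem_filter, mem_insert] at hx
            rw [mem_filter]
            refine ⟨?_, hx.2⟩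
            rcases hx.1 with h2 | h2
            · rw [h2]; exact him.1
            · by_contra hxB
              have h3 : j ≤ x := min'_le _ _ (mem_sdiff.2 ⟨mem_of_mem_erase h2, hxB⟩)
              have h4 : j.val ≤ x.val := h3
              have := hx.2
              omega
          · refine le_trans ?_ (hle' t)
            have h5 : pre t (insert i (A.erase j)) = pre t A := by
              have h6 : i.val < j.val := hij
              unfold pre
              have h7 : (insert i (A.erase j)).filter (fun x => x.val < t) =
                  insert i ((A.filter (fun x => x.val < t)).erase j) := by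
                ext x
                simp only [mem_filter, mem_insert, mem_erase]
                constructor
                · rintro ⟨h8 | h8, h9⟩
                  · exact Or.inl h8
                  · exact Or.inr ⟨h8.1, h8.2, h9⟩
                · rintro (h8 | h8)
                  · refine ⟨Or.inl h8, ?_⟩
                    rw [h8]
                    omega
                  · exact ⟨Or.inr ⟨h8.1, h8.2.1⟩, h8.2.2⟩
              have h8 : j ∈ A.filter (fun x => x.val < t) :=
                mem_filter.2 ⟨hjm.1, by omega⟩
              rw [h7, card_insert_of_notMem, card_erase_of_mem h8]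
              · have : 0 < (A.filter (fun x => x.val < t)).card := card_pos.2 ⟨j, h8⟩
                omega
              · rw [mem_erase, mem_filter]
                exact fun h9 => him.2 h9.2.1
            exact h5.le
        · have h1 : insert i (A.erase j) \ B = (A \ B).erase j := by
            ext x
            simp only [mem_sdiff, mem_insert, mem_erase]
            constructor
            · rintro ⟨h2 | h2, h3⟩
              · exact absurd (h2 ▸ him.1) h3
              · exact ⟨h2.1, h2.2, h3⟩
            · rintro ⟨h2, h3, h4⟩
              exact ⟨Or.inr ⟨h2, h3⟩, h4⟩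
          rw [h1, card_erase_of_mem (mem_sdiff.2 hjm)]
          omega
  exact key _ A hA hc h le_rfl

/-- two members of a shifted intersecting family: the sum of the paths is positive somewhere -/
theorem sum_pos {n : ℕ} {P : Finset (Finset (Fin n))} (hs : Shifted P)
    (hP : ∀ A ∈ P, ∀ B ∈ P, (A ∩ B).Nonempty) {A B : Finset (Fin n)} (hA : A ∈ P)
    (hB : B ∈ P) : ∃ t, 0 < ht A t + ht B t := by
  obtain ⟨q, _, _, h⟩ := pair_prefix (e := 1) le_rfl hs
    (fun X hX => card_pos.2 (hP X hX B hB)) hA
  refine ⟨q, ?_⟩
  unfold ht
  omega

end Pool.Agent.RKF
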